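import Pool.Agent.W458.MF.EStm
import Pool.Agent.W460.MF.OCNTE

/-!
# Counting the polynomials with the pattern with one exception, with the class
-/

set_option autoImplicit false

open Polynomial

namespace Pool.Agent.W310.MF

open Pool.Agent.W458.MF Pool.Agent.W460.MF

variable (l r : ℕ) [Fact l.Prime]

/-- mixed classes, the other type -/
noncomputable def MP : Finset (ZMod l) := by
  classical
  exact Finset.univ.filter (fun t => t + 2 * (r : ZMod l) ∈ Nq l ∧ t - 2 * (r : ZMod l) ∈ Sq l)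

theorem mem_MP (t : ZMod l) : t ∈ MP l r ↔
    t + 2 * (r : ZMod l) ∈ Nq l ∧ t - 2 * (r : ZMod l) ∈ Sq l := by
  unfold MP
  simp

theorem card_MP (hl : 3 ≤ l) (hr : ¬ l ∣ r) : l ≤ 4 * (MP l r).card + 10 := by
  classical
  obtain ⟨c1, c2⟩ := card_Sq_Nq l (by omega)
  obtain ⟨k1, -, -⟩ := counts l r hl hr
  have hd3 : Disjoint (MM l r) (PM l r) := by
    rw [Finset.disjoint_left]
    intro t h1 h2
    rw [mem_MM, mem_Nq] at h1
    rw [mem_PM, mem_Sq] at h2
    exact h1.1 h2.1.1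
  have t1 : (Finset.univ.filter (fun t : ZMod l => t + 2 * (r : ZMod l) ∈ Nq l)).card =
      (Nq l).card := by
    refine Finset.card_bij (fun t _ => t + 2 * (r : ZMod l)) ?_ ?_ ?_
    · intro t ht
      exact (Finset.mem_filter.1 ht).2
    · intro t _ t' _ h
      exact add_right_cancel h
    · intro x hx
      exact ⟨x - 2 * (r : ZMod l), Finset.mem_filter.2 ⟨Finset.mem_univ _, by simpa using hx⟩,
        by ring⟩
  have t2 : (Finset.univ.filter (fun t : ZMod l => t - 2 * (r : ZMod l) ∈ Nq l)).card =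
      (Nq l).card := by
    refine Finset.card_bij (fun t _ => t - 2 * (r : ZMod l)) ?_ ?_ ?_
    · intro t ht
      exact (Finset.mem_filter.1 ht).2
    · intro t _ t' _ h
      exact sub_left_injective h
    · intro x hx
      exact ⟨x + 2 * (r : ZMod l), Finset.mem_filter.2 ⟨Finset.mem_univ _, by simpa using hx⟩,
        by ring⟩
  have u1 : (Finset.univ.filter (fun t : ZMod l => t + 2 * (r : ZMod l) ∈ Nq l)) ⊆
      (MM l r ∪ MP l r) ∪ {2 * (r : ZMod l)} := by
    intro t ht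
    have h1 := (Finset.mem_filter.1 ht).2
    simp only [Finset.mem_union, mem_MM, mem_MP, Finset.mem_singleton]
    by_cases h2 : t - 2 * (r : ZMod l) = 0
    · exact Or.inr (sub_eq_zero.1 h2)
    · by_cases h3 : IsSquare (t - 2 * (r : ZMod l))
      · exact Or.inl (Or.inr ⟨h1, (mem_Sq l _).2 ⟨h3, h2⟩⟩)
      · exact Or.inl (Or.inl ⟨h1, (mem_Nq l _).2 h3⟩)
  have v2 : MM l r ∪ PM l r ⊆
      (Finset.univ.filter (fun t : ZMod l => t - 2 * (r : ZMod l) ∈ Nq l)) := by
    intro t ht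
    rw [Finset.mem_union, mem_MM, mem_PM] at ht
    exact Finset.mem_filter.2 ⟨Finset.mem_univ _, ht.elim (fun h => h.2) (fun h => h.2)⟩
  have w1 := (Finset.card_le_card u1).trans (Finset.card_union_le _ _)
  have w1' := Finset.card_union_le (MM l r) (MP l r)
  have w4 := Finset.card_le_card v2
  rw [Finset.card_union_of_disjoint hd3] at w4
  rw [Finset.card_singleton] at w1
  rw [t1] at w1
  rw [t2] at w4
  omega

/-- the mixed elements at which `luc` does not vanish -/
noncomputable def ML (N : ℕ) : Finset (ZMod l) := by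
  classical
  exact (MP l r).filter
    (fun t => ((luc ((r ^ 2 : ℕ) : ℤ) N).map (Int.castRingHom (ZMod l))).eval t ≠ 0)

theorem mem_ML (N : ℕ) (t : ZMod l) : t ∈ ML l r N ↔ t ∈ MP l r ∧
    ((luc ((r ^ 2 : ℕ) : ℤ) N).map (Int.castRingHom (ZMod l))).eval t ≠ 0 := by
  unfold ML
  rw [Finset.mem_filter]

theorem card_ML (hl : 3 ≤ l) (hr : ¬ l ∣ r) (N : ℕ) (hN : 0 < N) :
    l ≤ 4 * (ML l r N).card + 10 + 4 * N := by
  classical
  have c1 := card_MP l r hl hr
  obtain ⟨h2, h3⟩ := Pool.Agent.W205.MF.luc_mod ((r ^ 2 : ℕ) : ℤ) N l hN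
  have h4 : MP l r ⊆ ML l r N ∪
      ((luc ((r ^ 2 : ℕ) : ℤ) N).map (Int.castRingHom (ZMod l))).roots.toFinset := by
    intro t ht
    rw [Finset.mem_union]
    by_cases h5 : ((luc ((r ^ 2 : ℕ) : ℤ) N).map (Int.castRingHom (ZMod l))).eval t = 0
    · right
      rw [Multiset.mem_toFinset, mem_roots h3]
      exact h5
    · left
      rw [mem_ML]
      exact ⟨ht, h5⟩
  have h5 := (Finset.card_le_card h4).trans (Finset.card_union_le _ _)
  have h6 : ((luc ((r ^ 2 : ℕ) : ℤ) N).map (Int.castRingHom (ZMod l))).roots.toFinset.card ≤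
      N - 1 :=
    (Multiset.toFinset_card_le _).trans ((card_roots' _).trans h2)
  omega

/-- the exceptions: `t ^ 2 - 4 r ^ 2` is not a square, `w r (t + 2 r)` is a square and `luc` does
not vanish -/
noncomputable def BB (N : ℕ) (w : ZMod l) : Finset (ZMod l) := by
  classical
  exact Finset.univ.filter (fun t => ¬ IsSquare (t ^ 2 - 4 * (r : ZMod l) ^ 2) ∧
    ((luc ((r ^ 2 : ℕ) : ℤ) N).map (Int.castRingHom (ZMod l))).eval t ≠ 0 ∧
    IsSquare (w * ((r : ZMod l) * (t + 2 * (r : ZMod l)))))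

theorem mem_BB (N : ℕ) (w t : ZMod l) : t ∈ BB l r N w ↔
    ¬ IsSquare (t ^ 2 - 4 * (r : ZMod l) ^ 2) ∧
    ((luc ((r ^ 2 : ℕ) : ℤ) N).map (Int.castRingHom (ZMod l))).eval t ≠ 0 ∧
    IsSquare (w * ((r : ZMod l) * (t + 2 * (r : ZMod l)))) := by
  unfold BB
  rw [Finset.mem_filter]
  simp

theorem card_BB (hl : 3 ≤ l) (hr : ¬ l ∣ r) (N : ℕ) (hN : 0 < N) (w : ZMod l) :
    l ≤ 4 * (BB l r N w).card + 10 + 4 * N := by
  classical
  have e : ∀ t : ZMod l, t ^ 2 - 4 * (r : ZMod l) ^ 2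
      = (t + 2 * (r : ZMod l)) * (t - 2 * (r : ZMod l)) := fun t => by ring
  by_cases h : IsSquare (w * (r : ZMod l))
  · have h1 : PL l r N ⊆ BB l r N w := by
      intro t ht
      obtain ⟨h2, h3⟩ := (mem_PL l r N t).1 ht
      obtain ⟨h4, h5⟩ := (mem_PM l r t).1 h2
      rw [mem_Sq] at h4
      rw [mem_Nq] at h5
      rw [mem_BB]
      refine ⟨?_, h3, ?_⟩
      · rw [e, mul_comm]
        exact nonsq_mul l h5 h4.1 h4.2
      · rw [← mul_assoc]
        exact h.mul h4.1
    have h2 := Finset.card_le_card h1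
    have h3 := card_PL l r hl hr N hN
    omega
  · have h1 : ML l r N ⊆ BB l r N w := by
      intro t ht
      obtain ⟨h2, h3⟩ := (mem_ML l r N t).1 ht
      obtain ⟨h4, h5⟩ := (mem_MP l r t).1 h2
      rw [mem_Nq] at h4
      rw [mem_Sq] at h5
      rw [mem_BB]
      refine ⟨?_, h3, ?_⟩
      · rw [e]
        exact nonsq_mul l h4 h5.1 h5.2
      · rw [← mul_assoc]
        exact sq_mul_nonsq l h h4
    have h2 := Finset.card_le_card h1
    have h3 := card_ML l r hl hr N hN
    omega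

theorem lower (n N : ℕ) (κ : (ZMod l)ˣ) (m : ℕ) (hm : ∀ w, m ≤ (BB l r N w).card) :
    (Pool.Agent.W521.Density.SS l (r ^ 2)).card.choose n * m ≤
      (eflipSet (n + 1) N l r κ).ncard := by
  classical
  let W : Finset (ZMod l) → ZMod l :=
    fun T => (κ : ZMod l) * ∏ t ∈ T, ((r : ZMod l) * (t + 2 * (r : ZMod l)))
  let P : Finset (Σ _ : Finset (ZMod l), ZMod l) :=
    ((Pool.Agent.W521.Density.SS l (r ^ 2)).powersetCard n).sigma (fun T => BB l r N (W T))
  have hP : (Pool.Agent.W521.Density.SS l (r ^ 2)).card.choose n * m ≤ P.card := by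
    rw [Finset.card_sigma, ← Finset.card_powersetCard, ← smul_eq_mul]
    exact Finset.card_nsmul_le_sum _ _ _ (fun T _ => hm (W T))
  have hdis : ∀ t w, t ∈ BB l r N w → t ∉ Pool.Agent.W521.Density.SS l (r ^ 2) := by
    intro t w h h'
    exact ((mem_BB l r N w t).1 h).1 ((mem_SS' l r t).1 h').1
  let F : Finset (Finset (ZMod l)) := P.image (fun p => insert p.2 p.1)
  let G : Finset (ZMod l)[X] := F.image (fun T => ∏ t ∈ T, (X - C t))
  have hF : F.card = P.card := by
    refine Finset.card_image_of_injOn ?_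
    rintro ⟨A, a⟩ h ⟨B, b⟩ h' hh
    obtain ⟨h3, h4⟩ := Finset.mem_sigma.1 (Finset.mem_coe.1 h)
    obtain ⟨h3', h4'⟩ := Finset.mem_sigma.1 (Finset.mem_coe.1 h')
    have h5 : A ⊆ Pool.Agent.W521.Density.SS l (r ^ 2) := (Finset.mem_powersetCard.1 h3).1
    have h5' : B ⊆ Pool.Agent.W521.Density.SS l (r ^ 2) := (Finset.mem_powersetCard.1 h3').1
    have h6 : a ∉ Pool.Agent.W521.Density.SS l (r ^ 2) := hdis a _ h4
    have h6' : b ∉ Pool.Agent.W521.Density.SS l (r ^ 2) := hdis b _ h4'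
    change insert a A = insert b B at hh
    have key : ∀ t, t ∈ insert a A ↔ t ∈ insert b B := fun t => by rw [hh]
    have e1 : A = B := by
      ext t
      constructor
      · intro ht
        rcases Finset.mem_insert.1 ((key t).1 (Finset.mem_insert_of_mem ht)) with h7 | h7
        · rw [h7] at ht
          exact absurd (h5 ht) h6'
        · exact h7
      · intro ht
        rcases Finset.mem_insert.1 ((key t).2 (Finset.mem_insert_of_mem ht)) with h7 | h7
        · rw [h7] at ht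
          exact absurd (h5' ht) h6
        · exact h7
    have e2 : a = b := by
      rcases Finset.mem_insert.1 ((key a).1 (Finset.mem_insert_self _ _)) with h7 | h7
      · exact h7
      · exact absurd (h5' h7) h6
    subst e1
    subst e2
    rfl
  have hG : G.card = F.card :=
    Finset.card_image_of_injective _ Pool.Agent.W205.MF.prod_injective
  have hsub : (G : Set (ZMod l)[X]) ⊆ eflipSet (n + 1) N l r κ := by
    intro f hf
    obtain ⟨T, hT, rfl⟩ := Finset.mem_image.1 (Finset.mem_coe.1 hf)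
    obtain ⟨⟨A, a⟩, h1, rfl⟩ := Finset.mem_image.1 hT
    obtain ⟨h3, h4⟩ := Finset.mem_sigma.1 h1
    change A ∈ _ at h3
    change a ∈ BB l r N (W A) at h4
    obtain ⟨h5, h6⟩ := Finset.mem_powersetCard.1 h3
    have h7 := hdis a _ h4
    obtain ⟨h8, h9, h10⟩ := (mem_BB l r N _ a).1 h4
    have haA : a ∉ A := fun h => h7 (h5 h)
    refine ⟨insert a A, a, ?_, Finset.mem_insert_self _ _, rfl, h8, h9, ?_, ?_⟩
    · rw [Finset.card_insert_of_notMem haA, h6]
    · intro t ht
      rw [Finset.erase_insert haA] at ht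
      exact (mem_SS' l r t).1 (h5 ht)
    · rw [Finset.prod_insert haA]
      have e : (κ : ZMod l) * ((r : ZMod l) * (a + 2 * (r : ZMod l)) *
          ∏ t ∈ A, ((r : ZMod l) * (t + 2 * (r : ZMod l)))) =
          W A * ((r : ZMod l) * (a + 2 * (r : ZMod l))) := by
        simp only [W]; ring
      rw [e]
      exact h10
  have hfin : (eflipSet (n + 1) N l r κ).Finite := by
    refine Pool.Agent.W205.MF.finite_prod.subset ?_
    rintro f ⟨T, t₀, -, -, rfl, -⟩
    exact ⟨T, rfl⟩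
  refine hP.trans ?_
  rw [← hF, ← hG, ← Set.ncard_coe_finset]
  exact Set.ncard_le_ncard hsub hfin

theorem ecnt : St_ECNT := by
  intro g N hg hN
  obtain ⟨n, rfl⟩ : ∃ n, g = n + 1 := ⟨g - 1, by omega⟩
  set D : ℕ := 8 * (4 ^ n * n.factorial) with hD
  have hD0 : 0 < D := by positivity
  refine ⟨1 / (D : ℝ), by positivity, 8 * n + 8 * N + 64, ?_⟩
  intro l hl hll r hr κ
  have : Fact l.Prime := ⟨hl⟩
  have hlr : ¬ l ∣ r ^ 2 := fun h => hr (hl.dvd_of_dvd_pow h)
  have hDR : (0 : ℝ) < (D : ℝ) := by exact_mod_cast hD0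
  rw [div_mul_eq_mul_div, one_mul, div_le_iff₀ hDR]
  obtain ⟨m, hm1, hm2⟩ : ∃ m : ℕ, l ≤ 8 * m ∧ 4 * m + 10 + 4 * N ≤ l :=
    ⟨(l + 7) / 8, by omega, by omega⟩
  have h1 := lower l r n N κ m (fun w => by
    have := card_BB l r (by omega) hr N hN w
    omega)
  have h3 := Pool.Agent.W521.Density.choose_lower l (r ^ 2) n (by omega) hlr
  have h8 : l ^ (n + 1) ≤ (eflipSet (n + 1) N l r κ).ncard * D := by
    calc l ^ (n + 1) = l ^ n * l := by ring
      _ ≤ (4 ^ n * n.factorial * (Pool.Agent.W521.Density.SS l (r ^ 2)).card.choose n) *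
            (8 * m) := Nat.mul_le_mul h3 hm1
      _ = ((Pool.Agent.W521.Density.SS l (r ^ 2)).card.choose n * m) * D := by rw [hD]; ring
      _ ≤ _ := Nat.mul_le_mul_right _ h1
  exact_mod_cast h8

end Pool.Agent.W310.MF
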